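import Pool.Agent.R902.Tri1Sum

/-!
`∑_{k<p} a(k) ≡ C(2m,m) (mod p^2)` for `p = 3m+1`, where
`a(n) = ∑_j C(n+j,j) C(n,j) C(n-j,j)`.
-/

namespace Pool.Agent.Results.MP_2064c1_nt.TrinomialSum

/-- `a(n) = ∑_{0 ≤ j ≤ n} C(n+j,j) C(n,j) C(n-j,j)` -/
def a (n : ℕ) : ℕ :=
  ∑ j ∈ Finset.range (n + 1), (n + j).choose j * n.choose j * (n - j).choose j

theorem result (p : ℕ) (hp : p.Prime) (h : p % 3 = 1) :
    ((p : ℤ) ^ 2) ∣ (∑ k ∈ Finset.range p, (a k : ℤ)) -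
      ((2 * ((p - 1) / 3)).choose ((p - 1) / 3) : ℤ) := by
  have : Fact p.Prime := ⟨hp⟩
  have hodd : p % 2 = 1 := by
    rcases hp.eq_two_or_odd with h2 | h2
    · omega
    · exact h2
  obtain ⟨l, hl⟩ : ∃ l, p = 6 * l + 1 := ⟨p / 6, by omega⟩
  have h1 := Pool.Agent.R902.Tri1Sum.dvd_one p l hl
  have h2 : (p - 1) / 3 = 2 * l := by omega
  rw [h2]
  rw [Nat.centralBinom, Nat.cast_sum] at h1
  exact h1

end Pool.Agent.Results.MP_2064c1_nt.TrinomialSum
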